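import Mathlib

/-!
# MP_96acc4_lc : weak `P_{κ⁺}`-points below products of ultrafilters on `κ`

We prove Q1: if `u ∈ ω*` is a weak `P_{κ⁺}`-point and `u` is Rudin-Keisler below a finite iterated
product of ultrafilters on a set of size `κ`, then `u` is Rudin-Keisler below one of the factors.
The hypotheses `ω ≤ κ < 2^ω` are not needed.
-/

set_option autoImplicit false

open Cardinal

namespace Pool.Agent.Results.MP_96acc4_lc.WeakPPointBelowProduct

/-- The Rudin-Keisler order: `u ≤_RK v` iff `u` is the image of `v` under some function. -/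
def RK {X Y : Type} (u : Ultrafilter Y) (v : Ultrafilter X) : Prop :=
  ∃ f : X → Y, u = v.map f

/-- The product `v ⊗ w`; see `mem_tensor`. -/
def tensor {X Y : Type} (v : Ultrafilter X) (w : Ultrafilter Y) : Ultrafilter (X × Y) :=
  v.bind fun x => w.map fun y => (x, y)

theorem mem_tensor {X Y : Type} (v : Ultrafilter X) (w : Ultrafilter Y) (A : Set (X × Y)) :
    A ∈ tensor v w ↔ {x : X | {y : Y | (x, y) ∈ A} ∈ w} ∈ v := Iff.rfl

/-- The underlying set `K × (K × (⋯ × K))` (`n + 1` factors) of an iterated product. -/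
def Pow (K : Type) : ℕ → Type
  | 0 => K
  | (n + 1) => K × Pow K n

/-- The iterated product `v 0 ⊗ (v 1 ⊗ (⋯ ⊗ v n))`. -/
def iterTensor {K : Type} : (n : ℕ) → (Fin (n + 1) → Ultrafilter K) → Ultrafilter (Pow K n)
  | 0, v => v 0
  | (n + 1), v => tensor (v 0) (iterTensor n fun i => v i.succ)

/-- An ultrafilter is nonprincipal, i.e. a point of `ω*`. -/
def Nonprincipal (u : Ultrafilter ℕ) : Prop := ∀ n : ℕ, u ≠ (pure n : Ultrafilter ℕ)

/-- `u` is a weak `P_{κ⁺}`-point: `u ∈ ω*` and `u` is not in the closure of any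
`F ⊆ ω* \ {u}` with `|F| ≤ κ`. -/
def IsWeakPPoint (κ : Cardinal.{0}) (u : Ultrafilter ℕ) : Prop :=
  Nonprincipal u ∧ ∀ F : Set (Ultrafilter ℕ), (∀ w ∈ F, Nonprincipal w ∧ w ≠ u) →
    #F ≤ κ → u ∉ closure F

theorem mem_closure_iff' (u : Ultrafilter ℕ) (F : Set (Ultrafilter ℕ)) :
    u ∈ closure F ↔ ∀ A ∈ u, ∃ w ∈ F, A ∈ w := by
  rw [ultrafilterBasis_is_basis.mem_closure_iff]
  constructor
  · intro h A hA
    obtain ⟨w, hw1, hw2⟩ := h {w | A ∈ w} ⟨A, rfl⟩ hA
    exact ⟨w, hw2, hw1⟩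
  · rintro h _ ⟨A, rfl⟩ hA
    obtain ⟨w, hw1, hw2⟩ := h A hA
    exact ⟨w, hw2, hw1⟩

/-- The key step: two factors, the second one arbitrary. -/
theorem two_factors {X Y : Type} {u : Ultrafilter ℕ} (hu : IsWeakPPoint #X u)
    (v : Ultrafilter X) (w : Ultrafilter Y) (h : RK u (tensor v w)) : RK u v ∨ RK u w := by
  classical
  obtain ⟨f, hf⟩ := h
  by_cases h1 : ∃ x : X, u = w.map (fun y => f (x, y))
  · obtain ⟨x, hx⟩ := h1
    exact Or.inr ⟨_, hx⟩
  push Not at h1
  have key : ∀ A ∈ u, {x : X | A ∈ w.map (fun y => f (x, y))} ∈ v := by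
    intro A hA
    rw [hf] at hA
    exact hA
  by_cases h2 : {x : X | Nonprincipal (w.map (fun y => f (x, y)))} ∈ v
  · exfalso
    refine hu.2 ((fun x => w.map (fun y => f (x, y))) ''
      {x : X | Nonprincipal (w.map (fun y => f (x, y)))}) ?_ ?_ ?_
    · rintro _ ⟨x, hx, rfl⟩
      exact ⟨hx, (h1 x).symm⟩
    · exact mk_image_le.trans (mk_set_le _)
    · rw [mem_closure_iff']
      intro A hA
      obtain ⟨x, hx1, hx2⟩ := v.nonempty_of_mem (Filter.inter_mem (key A hA) h2)
      exact ⟨_, ⟨x, hx2, rfl⟩, hx1⟩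
  · left
    have h3 := Ultrafilter.compl_mem_iff_notMem.mpr h2
    have hg : ∀ x : X, ∃ n : ℕ, ¬ Nonprincipal (w.map (fun y => f (x, y))) →
        w.map (fun y => f (x, y)) = (pure n : Ultrafilter ℕ) := by
      intro x
      by_cases hx : Nonprincipal (w.map (fun y => f (x, y)))
      · exact ⟨0, fun hx' => absurd hx hx'⟩
      · have hx' := hx
        unfold Nonprincipal at hx'
        push Not at hx'
        obtain ⟨n, hn⟩ := hx'
        exact ⟨n, fun _ => hn⟩
    choose g hg using hg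
    refine ⟨g, ?_⟩
    refine (Ultrafilter.eq_of_le ?_).symm
    intro A hA
    have h4 := key A hA
    change {x | g x ∈ A} ∈ v
    filter_upwards [h4, h3] with x hx1 hx2
    rw [hg x hx2] at hx1
    exact hx1

/-- Q1: a weak `P_{κ⁺}`-point `u` that is Rudin-Keisler below an iterated product of ultrafilters
on a set `K` of size `κ` is Rudin-Keisler below one of the factors. -/
theorem result (K : Type) (u : Ultrafilter ℕ) (hu : IsWeakPPoint #K u) (n : ℕ)
    (v : Fin (n + 1) → Ultrafilter K) (h : RK u (iterTensor n v)) : ∃ k, RK u (v k) := by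
  induction n with
  | zero => exact ⟨0, h⟩
  | succ n ih =>
    rcases two_factors hu _ _ h with h1 | h1
    · exact ⟨0, h1⟩
    · obtain ⟨k, hk⟩ := ih (fun i => v i.succ) h1
      exact ⟨k.succ, hk⟩

end Pool.Agent.Results.MP_96acc4_lc.WeakPPointBelowProduct
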